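import Pool.Agent.R629.SP.Rep

/-!
# Continuation or transcendence on the edge of the L-functions `L_S(s, π, ρ)`

`G` is any group, for example `GSpin_{2n+1}(ℂ)`, the L-group of `GSp_{2n}`; `A_p` is any element of
`G`, for example a member of the Satake conjugacy class of `π_p`, where `π` is an automorphic
representation; `(σ_j)` is a countable family of finite-dimensional complex representations of `G`,
for example all algebraic representations of `GSpin_{2n+1}(ℂ)` up to isomorphism; the eigenvalues of
`σ_j(A_p)` are bounded by `p^{w_j}`, so that `L_S(s, A, σ_j)` converges for `Re s > 1 + w_j`.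
For products of L-groups one gets families of pairs `(π_j, ρ_j)`.

Meromorphic continuation of all these L-functions would in particular continue all products
`∏_j L_S(s + w_j, A, σ_j)^{e_j}`, `e_j` integers, almost all zero, across the line `Re s = 1`.  The
theorem says that for almost all real `τ` every one of these products either continues analytically to
a neighbourhood of `1 + iτ`, or has at this point a boundary value which is transcendental, also over
the field generated by the values at this point of any countable set of (locally) analytic functions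
given in advance.
-/

set_option autoImplicit false

namespace Pool.Agent.Results.MP_eea520_nt.ContinuationOrTranscendence

open MeasureTheory Filter Topology
open Pool.Agent.R629.SP

/-- The point `1 + iτ`. -/
noncomputable def onePoint (τ : ℝ) : ℂ := 1 + (τ : ℂ) * Complex.I

/-- The function `f`, defined for `Re s > 1`, continues analytically to a neighbourhood of `1 + iτ`:
near this point it agrees, for `Re s > 1`, with a function analytic at this point. -/
def Continues (f : ℂ → ℂ) (τ : ℝ) : Prop :=
  ∃ φ : ℂ → ℂ, AnalyticAt ℂ φ (onePoint τ) ∧ ∀ᶠ s in 𝓝 (onePoint τ), 1 < s.re → f s = φ s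

/-- The values at `s` of the functions in `𝓕` which are analytic at `s`. -/
def values (𝓕 : Set (ℂ → ℂ)) (s : ℂ) : Set ℂ :=
  {z : ℂ | ∃ g ∈ 𝓕, AnalyticAt ℂ g s ∧ g s = z}

/-- **Continuation or transcendence.**  Let `G` be a group, `A_p ∈ G` for every prime `p`, `S` a finite
set of primes, and `σ_j`, `j ∈ J`, countably many finite-dimensional complex representations of `G`
such that all eigenvalues of `σ_j(A_p)`, `p ∉ S`, have absolute value at most `p^{w_j}`.  There are
functions `l_j` on the real line such that

* outside a set of real numbers `τ` of Hausdorff dimension `0`, all `l_j(τ)` are nonzero and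
  `L_S(s, A, σ_j)` tends to `l_j(τ)` as `s` tends to `1 + w_j + iτ` in any angle in the half-plane
  `Re s > 1 + w_j`, for all `j`;
* for every countable set `𝓕` of functions, for almost every real `τ`, for all integers `e_j`, almost
  all zero, either the function `∏_j L_S(s + w_j, A, σ_j)^{e_j}` continues analytically to a
  neighbourhood of `1 + iτ`, or the number `∏_j l_j(τ)^{e_j}` is transcendental over the field
  generated over `ℚ` by the values `g(1 + iτ)` of all `g` in `𝓕` which are analytic at `1 + iτ`. -/
theorem result {G : Type} [Group G] (S : Finset ℕ) (A : Nat.Primes → G) {J : Type} [Countable J]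
    (V : J → Type) [∀ j, AddCommGroup (V j)] [∀ j, Module ℂ (V j)] [∀ j, FiniteDimensional ℂ (V j)]
    (σ : ∀ j, Representation ℂ G (V j)) (w : J → ℝ) (_ : ∀ j, Bounded S A (σ j) (w j)) :
    ∃ l : J → ℝ → ℂ,
      (∃ Z : Set ℝ, dimH Z = 0 ∧ ∀ τ : ℝ, τ ∉ Z → ∀ j, l j τ ≠ 0 ∧ ∀ C : ℝ,
        Tendsto (LFun S A (σ j)) (𝓝[angle (w j) τ C] (linePoint (w j) τ)) (𝓝 (l j τ))) ∧
      ∀ 𝓕 : Set (ℂ → ℂ), 𝓕.Countable → ∀ᵐ τ : ℝ, ∀ e : J →₀ ℤ,
        Continues (fun s => e.prod fun j k => LFun S A (σ j) (s + w j) ^ k) τ ∨
        Transcendental (IntermediateField.adjoin ℚ (values 𝓕 (onePoint τ)))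
          (e.prod fun j k => l j τ ^ k) := by
  rename_i h
  obtain ⟨l, h1, h2⟩ := mainA (J := J) S (fun j => mat A (σ j)) w fun j => Bd_mat (h j)
  refine ⟨l, ?_, ?_⟩
  · simp only [LFun_mat]
    exact h1
  · intro 𝓕 h𝓕
    filter_upwards [h2 𝓕 h𝓕] with τ hτ e
    have h3 := hτ e
    simp only [LFun_mat]
    exact h3

end Pool.Agent.Results.MP_eea520_nt.ContinuationOrTranscendence
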