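import Pool.Agent.R765.Ga7

/-!
# Meromorphic continuation of the Euler products of Langlands and Gaussian sums of traces

Let `H` be a group (for the problem `H = GSpin_{2n+1}(ℂ)`, `n ≥ 1` any), `ρ` a finite dimensional
representation of `H`, `S` a finite set of primes, and `A_p ∈ H` for the primes `p ∉ S` such that the
eigenvalues of `ρ(A_p)` have absolute value at most `p^θ` (for the problem the `A_p` are the Satake parameters
of an automorphic representation `π`; there is always such a `θ`, by Langlands). Let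

`L(s) = ∏_{p ∉ S} det (1 - ρ(A_p) p^(-s))⁻¹`, `Re s > 1 + θ`.

NO CONTINUATION OF `L(s)` IS ASSUMED. For real `b` and `T > 0` put

`g_b(T) = (π T)^(-1/2) ∑_{p ∉ S, k ≥ 1} tr ρ(A_p)^k (log p) p^(bk) exp (-(log p^k)² / (4T))`,

an absolutely convergent series; the trivial bound is `O(exp ((1 + θ + b + ε)² T))`. Let `R(b, c)` be the set
of the `s` with `Re (s + b) > 0` and `Re (s + b)² > c` (the interior of a branch of a hyperbola; for `c = 0`
the sector `|Im s| < Re s + b`). For all `H`, `ρ`, `S`, `A_p`, `θ` the following is proved.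

(1) Let `b` be real and `c ≥ 0`, `J` a finite set of complex numbers with `Re β > -b` for `β ∈ J`, and
`m : J → ℤ`. Then `L(s)` has a MEROMORPHIC continuation to `R(b, c)` (together with `Re s > 1 + θ`), of order
`m(β)` at the points `β ∈ J` of `R(b, c)` and without other zeros and poles in `R(b, c)`, if and only if for
every `ε > 0`

`g_b(T) = - 2 ∑_{β ∈ J} m(β) exp ((β + b)² T) + O(exp ((c + ε) T))`.

(2) Equivalent:
* `L(s)` extends to a meromorphic function on `ℂ`;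
* for all real `b` and all `ε > 0` there are a finite `J` and `m : J → ℤ` such that
  `g_b(T) = - 2 ∑_{β ∈ J} m(β) exp ((β + b)² T) + O(exp (ε T))`;
* for one `κ < 1` there are arbitrarily large `b` such that
  `g_b(T) = - 2 ∑_{β ∈ J} m(β) exp ((β + b)² T) + O(exp (κ b² T))` for some finite `J` and `m : J → ℤ`.

So the question of the problem, for all `n`, `ρ` and `π`, is whether Gaussian sums of the traces
`tr ρ(A_p)^k` are finite integral combinations of exponentials, up to a factor less than one in the exponent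
of the trivial bound. There is no condition on the growth of `L(s)` or on the number of its zeros: the
boundary of `R(b, c)` meets the region where the Euler product does not converge in a compact set.

Proof. The Laplace transform of `g_b(T)` is `-(L'/L)(√z - b) / √z`, and this function decays like
`exp (-c √|z|)` on the right of every vertical line where it can be continued.
-/

set_option autoImplicit false

namespace Pool.Agent.Results.MP_eea520_nt.GaussianCriterion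

open Filter Topology

variable {H : Type} [Group H] {d : ℕ}

/-- The Euler product `L(s) = ∏_{p ∉ S} det (1 - ρ(A_p) p^(-s))⁻¹`. -/
noncomputable def L (ρ : H →* Matrix (Fin d) (Fin d) ℂ) (A : ℕ → H) (S : Finset ℕ) (s : ℂ) : ℂ :=
  ∏' p : {p : ℕ // p.Prime ∧ p ∉ S}, ((1 - ((p : ℕ) : ℂ) ^ (-s) • ρ (A p)).det)⁻¹

/-- `g_b(T)`: `(π T)^(-1/2)` times the sum over the primes `p ∉ S` and `k ≥ 1` (here `k = x.2 + 1`) of
`tr ρ(A_p)^k (log p) p^(bk) exp (-(k log p)² / (4T))`. -/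
noncomputable def gauss (ρ : H →* Matrix (Fin d) (Fin d) ℂ) (A : ℕ → H) (S : Finset ℕ) (b T : ℝ) :
    ℂ :=
  (Real.sqrt (Real.pi * T) : ℂ)⁻¹ * ∑' x : {p : ℕ // p.Prime ∧ p ∉ S} × ℕ,
    (ρ (A x.1) ^ (x.2 + 1)).trace * (Real.log (x.1 : ℕ) : ℂ) *
      ((((x.1 : ℕ) : ℝ) ^ (b * ((x.2 : ℝ) + 1)) *
        Real.exp (-((((x.2 : ℝ) + 1) * Real.log (x.1 : ℕ)) ^ 2 / (4 * T))) : ℝ) : ℂ)

/-- The region `Re (s + b) > 0`, `Re (s + b)² > c`. -/
def Region (b c : ℝ) : Set ℂ := {s | 0 < (s + b).re ∧ c < ((s + b) ^ 2).re}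

/-- `L(s)` has a meromorphic continuation to `Region b c` (together with `Re s > 1 + θ`), of order `m(s)` at
the points `s ∈ J` of the region and of order `0` at its other points. -/
def Continues (ρ : H →* Matrix (Fin d) (Fin d) ℂ) (A : ℕ → H) (S : Finset ℕ) (θ b c : ℝ)
    (J : Finset ℂ) (m : ℂ → ℤ) : Prop :=
  ∃ G : ℂ → ℂ, (∀ s : ℂ, s ∈ Region b c ∨ 1 + θ < s.re → MeromorphicAt G s) ∧
    (∀ s : ℂ, 1 + θ < s.re → G s = L ρ A S s) ∧
    ∀ s ∈ Region b c, meromorphicOrderAt G s = if s ∈ J then (m s : WithTop ℤ) else 0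

/-- `g_b(T) = - 2 ∑_{β ∈ J} m(β) exp ((β + b)² T) + O(exp (η T))` as `T → ∞`. -/
def Formula (ρ : H →* Matrix (Fin d) (Fin d) ℂ) (A : ℕ → H) (S : Finset ℕ) (b η : ℝ)
    (J : Finset ℂ) (m : ℂ → ℤ) : Prop :=
  ∃ C : ℝ, ∀ᶠ T : ℝ in atTop,
    ‖gauss ρ A S b T + 2 * ∑ β ∈ J, (m β : ℂ) * Complex.exp ((β + b) ^ 2 * T)‖ ≤
      C * Real.exp (η * T)

open Pool.Agent.R765.Ga Pool.Agent.W334.BSD

theorem gauss_eq (ρ : H →* Matrix (Fin d) (Fin d) ℂ) (A : ℕ → H) (S : Finset ℕ) (b T : ℝ) :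
    gauss ρ A S b T = kG (lamE S) (tw (lamE S) (cE S fun p => ρ (A p)) b) T := by
  unfold gauss kG tw cE lamE gker
  rw [← tsum_mul_left]
  refine tsum_congr fun x => ?_
  have hp : (0 : ℝ) < ((x.1 : ℕ) : ℝ) := by
    have := two_le_p x.1
    linarith
  have e1 : ((x.1 : ℕ) : ℝ) ^ (b * ((x.2 : ℝ) + 1)) =
      Real.exp (b * (((x.2 : ℝ) + 1) * Real.log (x.1 : ℕ))) := by
    rw [Real.rpow_def_of_pos hp]
    congr 1
    ring
  rw [e1, Complex.ofReal_mul, Complex.ofReal_div]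
  ring

/-- **The Gaussian criterion.** -/
theorem result (H : Type) [Group H] (d : ℕ) (ρ : H →* Matrix (Fin d) (Fin d) ℂ) (A : ℕ → H)
    (S : Finset ℕ) (θ : ℝ) (hθ : ∀ p : ℕ, p.Prime → p ∉ S →
      ∀ a ∈ (ρ (A p)).charpoly.roots, ‖a‖ ≤ (p : ℝ) ^ θ) :
    (∀ (b c : ℝ) (J : Finset ℂ) (m : ℂ → ℤ), 0 ≤ c → (∀ β ∈ J, 0 < (β + b).re) →
      (Continues ρ A S θ b c J m ↔ ∀ ε : ℝ, 0 < ε → Formula ρ A S b (c + ε) J m)) ∧
    List.TFAE [
      ∃ G : ℂ → ℂ, (∀ s : ℂ, MeromorphicAt G s) ∧ ∀ s : ℂ, 1 + θ < s.re → G s = L ρ A S s,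
      ∀ b ε : ℝ, 0 < ε → ∃ (J : Finset ℂ) (m : ℂ → ℤ),
        (∀ β ∈ J, 0 < (β + b).re) ∧ Formula ρ A S b ε J m,
      ∃ κ : ℝ, κ < 1 ∧ ∀ b₀ : ℝ, ∃ b : ℝ, b₀ ≤ b ∧ ∃ (J : Finset ℂ) (m : ℂ → ℤ),
        (∀ β ∈ J, 0 < (β + b).re) ∧ Formula ρ A S b (κ * b ^ 2) J m] := by
  have hM : Bd S (fun p => ρ (A p)) θ := hθ
  have hLd : ∀ s : ℂ, 1 + θ < s.re → HasDerivAt (L ρ A S)
      (-(ser (lamE S) (cE S fun p => ρ (A p)) s * L ρ A S s)) s ∧ L ρ A S s ≠ 0 :=
    fun s hs => LEu_deriv hM hs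
  have h1 : ∀ (b c : ℝ) (J : Finset ℂ) (m : ℂ → ℤ), 0 ≤ c → (∀ β ∈ J, 0 < (β + b).re) →
      (Continues ρ A S θ b c J m ↔ ∀ ε : ℝ, 0 < ε → Formula ρ A S b (c + ε) J m) := by
    intro b c J m hc hJ
    have := gauss_iff (J := J) (m := m) (DD_E hM) hLd b hc hJ
    unfold Formula
    simp only [gauss_eq]
    exact this
  refine ⟨h1, ?_⟩
  have hmono : ∀ {b η η' : ℝ} {J : Finset ℂ} {m : ℂ → ℤ}, η ≤ η' → Formula ρ A S b η J m →
      Formula ρ A S b η' J m := by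
    rintro b η η' J m h ⟨C, hC⟩
    refine ⟨|C|, ?_⟩
    filter_upwards [hC, eventually_ge_atTop 0] with T k1 k2
    refine k1.trans ?_
    have k3 : Real.exp (η * T) ≤ Real.exp (η' * T) :=
      Real.exp_le_exp.2 (mul_le_mul_of_nonneg_right h k2)
    exact mul_le_mul (le_abs_self C) k3 (Real.exp_pos _).le (abs_nonneg C)
  tfae_have 1 → 2 := by
    rintro ⟨G, k1, k2⟩ b ε hε
    obtain ⟨J, m, k3, k4⟩ := fin_mer (σ := 1 + θ) (fun s hs => ⟨L_analytic hLd hs, (hLd s hs).2⟩) b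
      (half_pos hε) k1 k2
    refine ⟨J, m, fun β hβ => (k3 β hβ).1, ?_⟩
    have k5 := (h1 b (ε / 2) J m (half_pos hε).le fun β hβ => (k3 β hβ).1).1
      ⟨G, fun s _ => k1 s, k2, k4⟩ (ε / 2) (half_pos hε)
    rwa [add_halves] at k5
  tfae_have 2 → 3 := by
    intro h
    refine ⟨1 / 2, by norm_num, fun b₀ => ⟨max b₀ 1, le_max_left _ _, ?_⟩⟩
    have h2 : (1 : ℝ) ≤ max b₀ 1 := le_max_right _ _
    exact h (max b₀ 1) (1 / 2 * (max b₀ 1) ^ 2) (by positivity)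
  tfae_have 3 → 1 := by
    rintro ⟨κ, hκ, h⟩
    refine glue (σ := 1 + θ) (fun s hs => L_analytic hLd hs) fun s => ?_
    have hκ' : max κ 0 < 1 := max_lt hκ one_pos
    obtain ⟨b₀, hb₀⟩ := mem_Rb hκ' s
    obtain ⟨b, hb, J, m, k1, k2⟩ := h b₀
    have hc : 0 ≤ max κ 0 * b ^ 2 := by
      have : 0 ≤ max κ 0 := le_max_right _ _
      positivity
    have hle : κ * b ^ 2 ≤ max κ 0 * b ^ 2 :=
      mul_le_mul_of_nonneg_right (le_max_left _ _) (sq_nonneg _)
    obtain ⟨G, g1, g2, -⟩ := (h1 b (max κ 0 * b ^ 2) J m hc k1).2 fun ε hε =>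
      hmono (by linarith) k2
    exact ⟨Rb b (max κ 0 * b ^ 2), Rb_open _ _, hb₀ b hb, fun z hz t ht => Rb_add b hz ht, G,
      fun z hz => g1 z (Or.inl hz), fun z _ hz => g2 z hz⟩
  tfae_finish

end Pool.Agent.Results.MP_eea520_nt.GaussianCriterion
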