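import Pool.Agent.R629.SP.Rep

/-!
# Algebraic independence of the values of the L-functions of all irreducible representations

`G` is a linear group, for example `GSpin_{2n+1}(ℂ)`, the L-group of `GSp_{2n}`, in a faithful
algebraic representation (or the Zariski closure of the Satake classes of `π` in it, for example
`Spin_{2n+1}(ℂ)` if `π` has trivial central character); `A_p` is a member of the Satake class of
`π_p`; the Satake classes are Zariski dense in `G`; and `(σ_j)` is a family of pairwise non-isomorphic
irreducible algebraic representations of `G`.  For almost all points of a line `Re s = 1 + w`, in the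
closure of the half-plane of convergence of all the L-functions, the boundary values of all
`L_S(s, π, σ_j)` at this point are algebraically independent, together with `τ` and the `p^{-iτ}`.
For tempered `π` one can take `w = 0` and for `(σ_j)` all irreducible algebraic representations.  For
finite families there is always such a `w`, by the bound of Langlands.
-/

set_option autoImplicit false

namespace Pool.Agent.Results.MP_eea520_nt.IndependenceOfAllRepresentations

open MeasureTheory Filter Topology
open Pool.Agent.R629.SP

/-- The numbers `τ` and `p^{-iτ}`, `p` prime. -/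
noncomputable def powers (τ : ℝ) : Option Nat.Primes → ℂ
  | none => (τ : ℂ)
  | some p => ((p : ℕ) : ℂ) ^ (-((τ : ℂ) * Complex.I))

/-- **Independence of the L-functions of all irreducible representations.**  Let `G` be a group of
invertible complex `N × N` matrices, `S` a finite set of primes and `A_p ∈ G` for every prime `p`, such
that the conjugacy classes of the `A_p` are Zariski dense in `G`, also after leaving out finitely many
primes.  Let `σ_j`, `j ∈ J`, be countably many irreducible algebraic representations of `G`, pairwise
not isomorphic, and `w` a real number such that all eigenvalues of all `σ_j(A_p)`, `p ∉ S`, have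
absolute value at most `p^w`.  There are functions `l_j` on the real line such that

* for all real `τ` outside a set of Hausdorff dimension `0` and all `j`, `L_S(s, A, σ_j)` tends to
  `l_j(τ)` as `s` tends to `1 + w + iτ` in any angle in the half-plane `Re s > 1 + w`;
* for every countable field `k` of complex numbers and almost every real `τ`, the numbers `l_j(τ)`,
  `j ∈ J`, `τ` and `p^{-iτ}`, `p` prime, are algebraically independent over `k`. -/
theorem result {N : ℕ} {G : Subgroup (GL (Fin N) ℂ)} (S : Finset ℕ) (A : Nat.Primes → G)
    (_ : ZariskiDense S A) {J : Type} [Countable J] (V : J → Type) [∀ j, AddCommGroup (V j)]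
    [∀ j, Module ℂ (V j)] [∀ j, FiniteDimensional ℂ (V j)] (σ : ∀ j, Representation ℂ G (V j))
    (_ : ∀ j, IsAlgebraicRep (σ j)) (_ : ∀ j, (σ j).IsIrreducible)
    (_ : ∀ i j, i ≠ j → IsEmpty ((σ i).Equiv (σ j))) (w : ℝ) (_ : ∀ j, Bounded S A (σ j) w) :
    ∃ l : J → ℝ → ℂ,
      (∃ Z : Set ℝ, dimH Z = 0 ∧ ∀ τ : ℝ, τ ∉ Z → ∀ (j : J) (C : ℝ),
        Tendsto (LFun S A (σ j)) (𝓝[angle w τ C] (linePoint w τ)) (𝓝 (l j τ))) ∧
      ∀ k : Subfield ℂ, (k : Set ℂ).Countable → ∀ᵐ τ : ℝ,
        AlgebraicIndependent k (Sum.elim (fun j => l j τ) (powers τ)) := by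
  rename_i hA _ _ _ _ halg hirr hne h
  obtain ⟨l, h1, h2⟩ := mainB (J := J) S (fun j => mat A (σ j)) (fun _ => w)
    (fun j => Bd_mat (h j)) (fun e he => by
      refine (ind_of_dense hA σ halg hirr hne e he).mono ?_
      rintro p ⟨hp, hp'⟩
      refine ⟨hp, fun h0 => hp' ?_⟩
      have hq : ((p : ℕ) : ℂ) ^ (-(w : ℂ)) ≠ 0 := by
        rw [Ne, Complex.cpow_eq_zero_iff]
        exact fun h => p.2.ne_zero (by exact_mod_cast h.1)
      have h3 : (e.sum fun j k => (k : ℂ) * ((mat A (σ j) p).trace *
          ((p : ℕ) : ℂ) ^ (-(w : ℂ)))) =
          (e.sum fun j k => (k : ℂ) * LinearMap.trace ℂ (V j) (σ j (A p))) *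
            ((p : ℕ) : ℂ) ^ (-(w : ℂ)) := by
        unfold Finsupp.sum
        rw [Finset.sum_mul]
        refine Finset.sum_congr rfl fun j _ => ?_
        have h4 := trace_mat A (σ j) p
        change (_ : ℂ) * ((mat A (σ j) p).trace * _) = _ * LinearMap.trace ℂ (V j) (σ j (A p)) * _
        rw [h4]
        ring
      rw [h3] at h0
      exact (mul_eq_zero.1 h0).resolve_right hq)
  refine ⟨l, ?_, ?_⟩
  · simp only [LFun_mat]
    exact h1
  · intro k hk
    filter_upwards [h2 k hk] with τ hτ
    have h3 : Pool.Agent.R629.SP.powers τ = powers τ := by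
      funext o
      rcases o with _ | p <;> rfl
    rw [h3] at hτ
    exact hτ

end Pool.Agent.Results.MP_eea520_nt.IndependenceOfAllRepresentations
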