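import Pool.Agent.R390.SP.Main

/-!
# Meromorphic continuation for `GSp_{2n}`: the spin representation suffices

The following are equivalent.

(1) For infinitely many `N` the spin `L`-functions `L_S(s, π, r)` (of degree `2 ^ N`) of all automorphic
representations `π` of `GSp_{2N}` over `ℚ` have a meromorphic continuation to `ℂ`.

(2) For all `n`, all automorphic representations `π` of `GSp_{2n}` and all representations `ρ` of the dual
group `GSpin_{2n+1}(ℂ)` the function `L_S(s, π, ρ)` has a meromorphic continuation to `ℂ`; and the same
holds for all automorphic representations `τ` of `GL_m`, all `m` and all representations of `GL_m(ℂ)`; and
for all tensor products `Λ^{j_1} τ_1 ⊗ … ⊗ Λ^{j_k} τ_k ⊗ r(π)`.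

So the whole question is the question for the one representation `r`, and it contains the continuation of
all Langlands `L`-functions of all `GL_m`, for example of all symmetric powers and of all products
`L(s, τ_1 × … × τ_k)`.

A representation `ρ` enters through the multiplicities `f` of its weights; (2) is proved for all
functions `f` with integral values which are invariant under the Weyl group (the virtual
representations).

The structure `Automorphic` has the properties of the automorphic representations which are used; they are
known: the constituents of representations induced from automorphic representations of the Levi subgroups
`∏ GL_{m_i} × GSp_{2n}` are automorphic (Langlands), and the restriction of `π` to `Sp_{2n}` has a standard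
transfer to `GL_{2n+1}` (Arthur).

The proof. (a) Let `π'` be induced from `⊗ τ_i |det|^{t_i} ⊗ π`.  Its spin `L`-function is the product over
the `j_i` of the functions `L(s + ∑ t_i j_i, Λ^{j_1} τ_1 ⊗ … ⊗ r(π))`.  For large `t_i` all the factors but
one are holomorphic without zeros on a given half plane, so this one is continued to this half plane; by
induction all factors are continued (`isolate`).  (b) With repetition of the `τ_i` one gets all products
of exterior powers; they span the representation ring of `GL_m`, up to powers of the determinant, which are
absorbed by a character of `GL₁`.  (c) The representation ring of `GSpin_{2n+1}` consists of the `f₀ + f₁ r`
where `f₀`, `f₁` are polynomials in the exterior powers of the standard representation and the powers of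
the similitude character (`weyl_mem`, `y_mem`), so for `π` on `GSp_{2n}` one induces from copies of the
standard transfer of `π` and at most one copy of `π`.
-/

set_option autoImplicit false

namespace Pool.Agent.Results.MP_eea520_nt.SpinSuffices

open Pool.Agent.R390.SP

theorem result (A : Automorphic) : SpinContinued A ↔ AllContinued A := main A

end Pool.Agent.Results.MP_eea520_nt.SpinSuffices
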